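import Pool.Agent.Helper382_Ord.Class

/-!
# Ordinary primes for intersection cohomology: tensor roots

`K₀` is a number field, `X` a projective variety over `K₀`, not assumed smooth, and `V ℓ'` its
`ℓ'`-adic intersection cohomology in one degree, for all primes `ℓ'`, with the Hodge-Tate slopes `H`.
The `V ℓ'` are strictly compatible (Gabber, Katz-Laumon): the characteristic polynomials `F v` of the
geometric Frobenius elements are integral and do not depend on `ℓ'`.

The generators: for every `n` a finite extension `K n` of `K₀` and finitely many pure motives `A n i`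
over `K n` with multiplication by totally real or CM fields (over `K n` the `ℓ n`-adic monodromy
groups are connected, for one prime `ℓ n`), with the orbit condition of the library: for every `n`
some element `γ` of the Galois group of `K n` is `Admissible` for all `A n i`. For example, `A n` are
the first `n` members of an enumeration of the `H¹` of all elliptic curves and abelian surfaces, the
`H²` of all K3 surfaces, and all other motives with multiplications with small Hodge numbers.

The class `Generated` is the smallest class of systems over `K n` which contains the generators and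
is closed under direct sums, tensor products, Tate twists, duals, direct summands (with Mazur's
inequality for both summands) and under *roots of tensor powers*: if a tensor power of a system is in
the class, so is the system. The operations can be iterated in any order.

Let `X` run through the projective varieties over `K₀` whose intersection cohomology (in the given
degree, or in finitely many degrees `i`) is potentially, i.e. over `K n`, in this class.

Theorem. If this holds for one `n`, the places of `K₀` at which the Newton polygon of the intersection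
cohomology is the Hodge-Tate polygon (for all `ℓ'` and all embeddings `τ`) have positive lower
density; in particular, there are infinitely many. There is one infinite set `P` of places such that
for all `X` for which the condition holds for all large `n` all but finitely many places in `P` are
ordinary; its lower density is at least `c` if `c` is at most the proportion of the admissible elements
divided by `[K n : K₀]`, for every `n`.

What is new compared with the library (`MP_0dad22_ag`, `MP_17d720_ag`, where `V` is a direct summand of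
a direct sum of tensor products of generators) are the roots. Examples: the spin and half-spin
representations attached to a K3 surface or to a motive of K3 type with real multiplication
(cohomology of Kuga-Satake varieties), abelian fourfolds of Mumford's type, and all `V` of any weight
and Hodge level whose adjoint representation is in the class (`V^(⊗ r)` is, up to twist, in the
category generated by the adjoint representation, if `V` is irreducible of rank `r`).
-/

set_option autoImplicit false

namespace Pool.Agent.Results.MP_db07cb_ag.TensorRoots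

open NumberField IsDedekindDomain Polynomial Filter Topology
open Pool.Agent.W401.Cheb Pool.Agent.W528.Ord Pool.Agent.R915.Ord Pool.Agent.W850.Ord
open Pool.Agent.Helper382_Ord

/-- The `V ℓ'` are strictly compatible: at the places of degree one outside `T` the characteristic
polynomial of the geometric Frobenius element (the inverse of `γ`) is `F v`. -/
def StrictlyCompatible {K₀ : Type} [Field K₀] [NumberField K₀] (T : Finset ℕ) {r : ℕ}
    (V : ∀ (ℓ' : ℕ) [Fact ℓ'.Prime], GK K₀ →* Matrix.GeneralLinearGroup (Fin r) ℚ_[ℓ'])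
    (F : HeightOneSpectrum (𝓞 K₀) → Polynomial ℤ) : Prop :=
  ∀ (ℓ' : ℕ) [Fact ℓ'.Prime] (v₀ : HeightOneSpectrum (𝓞 K₀)), MultSystem.IsDeg1 T v₀ →
    Ideal.absNorm v₀.asIdeal ≠ ℓ' → ∀ γ : GK K₀, IsFrob v₀ γ →
      (V ℓ' γ⁻¹ : Matrix (Fin r) (Fin r) ℚ_[ℓ']).charpoly = (F v₀).map (Int.castRingHom ℚ_[ℓ'])

/-- `v₀` has degree one, and for every prime `ℓ'` different from the residue characteristic `p = N v₀`
and every embedding `τ` of the field of algebraic numbers the Newton polygon of `V ℓ'` at `v₀` has the
slopes `H`. -/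
def Ordinary {K₀ : Type} [Field K₀] [NumberField K₀] {r : ℕ}
    (V : ∀ (ℓ' : ℕ) [Fact ℓ'.Prime], GK K₀ →* Matrix.GeneralLinearGroup (Fin r) ℚ_[ℓ'])
    (H : Multiset ℕ) (v₀ : HeightOneSpectrum (𝓞 K₀)) : Prop :=
  ∃ (p : ℕ) (_ : Fact p.Prime), Ideal.absNorm v₀.asIdeal = p ∧
    ∀ (ℓ' : ℕ) [Fact ℓ'.Prime], p ≠ ℓ' → ∀ γ : GK K₀, IsFrob v₀ γ →
      ∀ τ : algebraicClosure ℚ (PadicAlgCl ℓ') →+* PadicAlgCl p,
        NewtonTau (V ℓ' γ⁻¹ : Matrix (Fin r) (Fin r) ℚ_[ℓ']) τ H

theorem ordinary_of {K₀ : Type} [Field K₀] [NumberField K₀] (T : Finset ℕ) {r : ℕ}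
    (V : ∀ (ℓ' : ℕ) [Fact ℓ'.Prime], GK K₀ →* Matrix.GeneralLinearGroup (Fin r) ℚ_[ℓ'])
    (F : HeightOneSpectrum (𝓞 K₀) → Polynomial ℤ) (H : Multiset ℕ) (hV : StrictlyCompatible T V F)
    (v₀ : HeightOneSpectrum (𝓞 K₀)) (hv : MultSystem.IsDeg1 T v₀)
    (hN : NewtonSlopes (Ideal.absNorm v₀.asIdeal) (F v₀) H) : Ordinary V H v₀ := by
  have hN' := hN
  obtain ⟨hp, -⟩ := hN
  refine ⟨Ideal.absNorm v₀.asIdeal, hp, rfl, ?_⟩
  intro ℓ' _ hne γ hγ τ
  exact newtonTau_of _ τ _ (F v₀) (hV ℓ' v₀ hv hne γ hγ) hN'

theorem result (K₀ : Type) [Field K₀] [NumberField K₀]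
    -- the fields of definition and the generators
    (K : ℕ → Type) [∀ n, Field (K n)] [∀ n, NumberField (K n)] [∀ n, Algebra K₀ (K n)]
    (ℓ : ℕ → ℕ) [∀ n, Fact (ℓ n).Prime] (ι : ℕ → Type) [∀ n, Fintype (ι n)]
    (A : ∀ n, ι n → MotSystem (K n) (ℓ n)) (χ : ∀ n, GK (K n) →* (PadicAlgCl (ℓ n))ˣ)
    (S : ∀ n, ι n → Finset ℕ) (hA : ∀ n i, (A n i).IsMotive (χ n) (S n i))
    -- the orbit condition
    (hγ : ∀ n, ∃ γ : GK (K n), ∀ i, (A n i).Admissible γ)
    (c : ℝ) (hc : ∀ n, c ≤ MotSystem.admProportion (A n) / (Module.finrank K₀ (K n) : ℝ)) :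
    ∃ P : Set (HeightOneSpectrum (𝓞 K₀)), P.Infinite ∧ c ≤ lowerDensity (fun v₀ => v₀ ∈ P) ∧
      -- all varieties `X`, with the intersection cohomology groups `V i`
      ∀ (T : Finset ℕ) (ν : Type) [Finite ν] (r : ν → ℕ)
        (V : ∀ (i : ν) (ℓ' : ℕ) [Fact ℓ'.Prime], GK K₀ →* Matrix.GeneralLinearGroup (Fin (r i)) ℚ_[ℓ'])
        (F : ν → HeightOneSpectrum (𝓞 K₀) → ℤ[X]) (H : ν → Multiset ℕ),
        (∀ i, StrictlyCompatible T (V i) (F i)) →
        -- positive lower density
        (∀ n, (∀ i, PotentiallyGenerated (A n) T (F i) (H i)) →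
          0 < lowerDensity (fun v₀ : HeightOneSpectrum (𝓞 K₀) => ∀ i, Ordinary (V i) (H i) v₀) ∧
          MotSystem.admProportion (A n) / (Module.finrank K₀ (K n) : ℝ) ≤
            lowerDensity (fun v₀ : HeightOneSpectrum (𝓞 K₀) => ∀ i, Ordinary (V i) (H i) v₀) ∧
          {v₀ : HeightOneSpectrum (𝓞 K₀) | ∀ i, Ordinary (V i) (H i) v₀}.Infinite) ∧
        -- the common set of places
        ((∀ i, ∀ᶠ n in atTop, PotentiallyGenerated (A n) T (F i) (H i)) →
          {v₀ ∈ P | ¬ ∀ i, Ordinary (V i) (H i) v₀}.Finite) := by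
  have hd : ∀ n, (0 : ℝ) < (Module.finrank K₀ (K n) : ℝ) := fun n => by
    have : FiniteDimensional K₀ (K n) := Module.Finite.of_restrictScalars_finite ℚ K₀ (K n)
    exact_mod_cast Module.finrank_pos
  have hpos : ∀ n, 0 < MotSystem.admProportion (A n) / (Module.finrank K₀ (K n) : ℝ) :=
    fun n => div_pos (MotSystem.admProportion_pos (A n) (hγ n)) (hd n)
  have hlow := fun n => lower_below (K₀ := K₀) (A n) (χ n) (S n) (hA n)
  obtain ⟨P, hinf, hdens, hfin⟩ := diagonal (fun n => Below K₀ (A n) (S n))
    (fun n => lt_of_lt_of_le (hpos n) (hlow n)) c (fun n => (hc n).trans (hlow n))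
  -- a good place is ordinary
  have hord : ∀ (T : Finset ℕ) (r : ℕ)
      (V : ∀ (ℓ' : ℕ) [Fact ℓ'.Prime], GK K₀ →* Matrix.GeneralLinearGroup (Fin r) ℚ_[ℓ'])
      (F : HeightOneSpectrum (𝓞 K₀) → ℤ[X]) (H : Multiset ℕ), StrictlyCompatible T V F →
      ∀ n, PotentiallyGenerated (A n) T F H → ∀ v₀, Below K₀ (A n) (S n) v₀ →
        Ideal.absNorm v₀.asIdeal ∉ T → Ordinary V H v₀ := by
    rintro T r V F H hV n hF v₀ ⟨v, h0, hg⟩ hT
    have e := under_norm v hg.1 v₀ h0
    refine ordinary_of T V F H hV v₀ ⟨e ▸ hg.1, hT⟩ ?_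
    exact newton_of_generated (A n) (χ n) (S n) (hA n) hF v₀ v h0 hg (e ▸ hT)
  refine ⟨P, hinf, hdens, fun T ν _ r V F H hV => ⟨fun n hF => ?_, fun hF => ?_⟩⟩
  · have key : MotSystem.admProportion (A n) / (Module.finrank K₀ (K n) : ℝ) ≤
        lowerDensity (fun v₀ : HeightOneSpectrum (𝓞 K₀) => ∀ i, Ordinary (V i) (H i) v₀) := by
      refine (hlow n).trans (lowerDensity_le_of_finite _ _ T ?_)
      intro v₀ hv₀ hT i
      exact hord T (r i) (V i) (F i) (H i) (hV i) n (hF i) v₀ hv₀ hT
    exact ⟨lt_of_lt_of_le (hpos n) key, key, infinite_of_pos _ (lt_of_lt_of_le (hpos n) key)⟩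
  · obtain ⟨n₀, hn₀⟩ := eventually_atTop.mp (eventually_all.mpr hF)
    refine ((hfin n₀).union (finite_norm_mem (K := K₀) T)).subset ?_
    rintro v₀ ⟨hv, hno⟩
    by_contra hcon
    rw [Set.mem_union, not_or] at hcon
    obtain ⟨h1, h2⟩ := hcon
    have h2' : Ideal.absNorm v₀.asIdeal ∉ T := h2
    obtain ⟨n, hn, hb⟩ : ∃ n, n₀ ≤ n ∧ Below K₀ (A n) (S n) v₀ := by
      by_contra h3
      push Not at h3
      exact h1 ⟨hv, h3⟩
    exact hno fun i => hord T (r i) (V i) (F i) (H i) (hV i) n (hn₀ n hn i) v₀ hb h2'

end Pool.Agent.Results.MP_db07cb_ag.TensorRoots
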